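import Pool.Agent.Q11.PB.Self

/-!
# Tate's Birch–Swinnerton-Dyer conjecture for `Y ^ 2 = D_n(X, a) - D_n(z, a) + (v + b(z, X)) ^ 2`

`V` is the variety of the points `(x, y)` with `y_i ^ 2 = G_i(x)`, over the number field `K`, for
polynomials `G_i` in `k` variables such that no product of some of them is a constant times a square.
`X` is the curve `Y ^ 2 = D_n(X, a(x)) - D_n(z, a(x)) + (v + b(x, z, X)) ^ 2` of genus `m` over the
finitely generated field `E(V × 𝔸²) = E(V)(z, v)`, for any number field `E ⊇ K`.  Here `D_n`,
`n = 2 m + 1`, is the Dickson polynomial with the parameter `a`, a nonzero polynomial function on the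
base: `D_n(u + a / u, a) = u ^ n + (a / u) ^ n`, and `b` is any polynomial of degree at most `m` in `X`.
For `b = 0` put `w = v ^ 2 - D_n(z, a)`: then `X` is the curve `C` with the equation
`Y ^ 2 = D_n(X, a) + w` over `E(V)(w)`, extended to its own function field, and the rank is that of the
group of the endomorphisms of the Jacobian of `C` over `E(V)(w)`, which has real multiplication.

`𝒴` is the open part of the model of `V × 𝔸²` over the ring of integers of `E` which consists of the
points `(x, y, z, v)` with `2 y_i ≠ 0` and smooth fibre, without the primes over a finite set `R`; it has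
dimension `k + 3`.  `X` has a rational point at infinity, so `Pic⁰_{X/E(V)(z,v)}(E(V)(z,v)) = Pic⁰ X` is
the class group of its affine coordinate ring.  The definitions are in `Pool.Agent.Q11.PB.Self`,
`Pool.Agent.Q11.PB.Hyp`, `Pool.Agent.Y707.SQ.Defs`, `Pool.Agent.Y707.DP.Defs`, `Pool.Agent.Y707.PC.Fin`,
`Pool.Agent.Y707.RX.Defs`, `Pool.Agent.Y707.PH.Defs` and `Pool.Agent.W353.FB.Defs`.
-/

set_option autoImplicit false
set_option maxHeartbeats 400000

namespace Pool.Agent.Results.MP_9faec4_nt.DicksonPencils

open Polynomial NumberField IsDedekindDomain Pool.Agent.Y707.SQ Pool.Agent.Q11.PB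
open Pool.Agent.Y707.DP (IsDickson endRank)
open Pool.Agent.Y707.RX (Continues)
open Pool.Agent.Y707.PC (IsFunctionField IsSmoothCurve PicFreeOfRank exists_field)

/-- **The function `Φ₁` of a Dickson pencil.**  The Euler product `Φ₁` of `X` over the closed points of
`𝒴` has a meromorphic continuation to a neighbourhood of every point of the real half-line `[k + 3, ∞)`,
and its order at `s = k + 3 = dim 𝒴` is the rank of the free abelian group `Pic⁰ X`, over all number
fields `E ⊇ K`: both are the number of the irreducible factors over `E` of the polynomial with the roots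
`ζ + ζ⁻¹`, `ζ ^ n = 1 ≠ ζ`. -/
theorem result (K : Type) [Field K] [NumberField K] (k l m : ℕ)
    (G : Fin l → MvPolynomial (Fin k) (𝓞 K)) (a : MvPolynomial (Fin k) (𝓞 K))
    (b : (MvPolynomial (Fin k) (𝓞 K))[X][X]) (h : IsDickson m G a) (hb : b.natDegree ≤ m)
    (E : IntermediateField K (AlgebraicClosure K)) [NumberField E] :
    -- the analytic side: the continuation of `Φ₁` and its order at `dim 𝒴`
    (∀ R : Finset (HeightOneSpectrum (𝓞 K)), Continues (selfFamily m G a b) R E (endRank m E)) ∧
    -- the algebraic side: `Pic⁰ X` over `M(z)(v)`, for the function field `M` of `V` over `E`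
    (∀ (M : Type) [Field M] [Algebra E M] (ξ : Fin k → M) (η : Fin l → M),
      IsFunctionField G E ξ η → IsSmoothCurve m (genericS m a b E ξ) ∧
        PicFreeOfRank (genericS m a b E ξ) (endRank m E)) ∧
    -- the function field exists
    (∃ (M : Type) (_ : Field M) (_ : Algebra E M) (ξ : Fin k → M) (η : Fin l → M),
      IsFunctionField G E ξ η) :=
  ⟨fun R => self_continues h hb R E, fun _ _ _ _ _ hM => self_algebraic h hb E hM,
    exists_field G E⟩

end Pool.Agent.Results.MP_9faec4_nt.DicksonPencils
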