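import Pool.Agent.Y709.Kum.CountF
import Pool.Agent.Y709.Irr.Sq
import Pool.Agent.Y363.Kum.DegreeFam
import Pool.Agent.Y427.Kum.Order
import Pool.Agent.Y468.Kum.Prod
import Pool.Agent.Results.MP_9faec4_nt.DensityOneTwists

/-!
# 100 per cent of the Kummer twists over `k(Y × 𝔸¹)`: sections of any degree, and all the
# `p`-extensions of a Kummer covering

The curves `y ^ (q - 1) = D B ∏ (x - β_i) ^ (m_i)` over the function field of `Y × 𝔸¹`, for a variety `Y` of
positive dimension over a finite field `k ⊇ 𝔽_q`, where the sections `β_i` have generically simple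
collisions. For `D` outside of a set of density zero there is a closed point `c` of `Y`, at which a given
polynomial `g` has a root, such that the `L`-functions of the specialisation at `c` do not vanish at
`s = 1`, over all the coverings of the line over `k(c)` that are Galois over the line and coverings with a
`p`-group of the Kummer covering `w_i ^ μ = γ_i`, `i = 1, …, a`.

Compared with the starting file `DensityOneTwists`: there is no condition on the degrees of `B` and of
the sections `β_i` (there `r f + 3 r ^ 2 + 6 r + 8 ≤ q`, `f ≥ deg B + d n`), and the coverings with a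
`p`-group are replaced by those of a Kummer covering (for `a = 0` these are the coverings of the line).
-/

set_option autoImplicit false

open Polynomial

namespace Pool.Agent.Results.MP_9faec4_nt.KummerTowers

open Pool.Agent.Results.MP_9faec4_nt.DensityOneTwists

/-- A finite group `G` acts on the ring `O ⊇ κ[t]` faithfully and with the ring of invariants `κ[t]`, so
that `Spec O` is a Galois covering of the line with the group `G`. There are elements `w_1, …, w_a` of
`O` with `w_i ^ μ = γ_i`, every element of the group multiplies every `w_i` by a constant, and the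
elements which fix all `w_i` form a `p`-group: so `Spec O` is a covering, with a `p`-group, of a
component of the curve `w_i ^ μ = γ_i(t)`. The covering is unramified at the points where `E(t)` is not
zero: the inertia groups are trivial. -/
structure IsLayerOver {κ : Type} [Field κ] (p μ : ℕ) {a : ℕ} (γ : Fin a → κ[X]) (E : κ[X])
    (G O : Type) [Group G] [Finite G] [CommRing O] [Algebra κ[X] O] [MulSemiringAction G O] :
    Prop where
  galois : IsGaloisGroup G κ[X] O
  injective : Function.Injective (algebraMap κ[X] O)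
  kummer : ∃ w : Fin a → O, (∀ i, w i ^ μ = algebraMap κ[X] O (γ i)) ∧
    (∀ i, ∀ σ : G, ∃ c : κ, σ • w i = algebraMap κ[X] O (C c) * w i) ∧
    ∀ σ : G, (∀ i, σ • w i = w i) → ∃ n : ℕ, σ ^ p ^ n = 1
  unramified : ∀ 𝔪 : MaximalSpectrum O, algebraMap κ[X] O E ∉ 𝔪.asIdeal →
    𝔪.asIdeal.inertia G = ⊥

section pencil

variable {A : Type} [CommRing A] {r : ℕ}

/-- The product of the differences `β_j - β_i` over `i < j`. -/
noncomputable def differences (S : Pencil A r) : A[X] :=
  ∏ i, ∏ j ∈ Finset.Ioi i, (S.root j - S.root i)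

/-- The polynomial `P` over the domain `A` is separable over the field of fractions of `A`. -/
def GenericallySeparable (P : A[X]) : Prop :=
  ∃ (u v : A[X]) (e : A), e ≠ 0 ∧ u * P + v * derivative P = C e

/-- The pencil has generically simple collisions, and its sections have the degree `d`: the sections
`β_i` have degree at most `d ≥ 1` in `t`, their differences have exactly the degree `d`, and the product
of the differences is separable. The multiplicities `m_i` are positive. The polynomial `B` is not zero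
and its geometric zeros have multiplicity at most `b`: over the field of fractions it divides the `b`-th
power of a separable polynomial. -/
structure GenericallySimple (S : Pencil A r) (d b : ℕ) : Prop where
  deg_pos : 0 < d
  root_deg : ∀ i, (S.root i).natDegree ≤ d
  diff_deg : ∀ i j, i ≠ j → (S.root i - S.root j).coeff d ≠ 0
  diff_sep : GenericallySeparable (differences S)
  mult_pos : ∀ i, 0 < S.mult i
  coef_ne : S.coef ≠ 0
  coef_mult : ∃ (Q : A[X]) (e : A), GenericallySeparable Q ∧ e ≠ 0 ∧ S.coef ∣ C e * Q ^ b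

/-- The polynomials `γ_i` are not zero and all their geometric zeros are zeros of `B`: over the field of
fractions they divide powers of `B`. -/
def ZerosIn {a : ℕ} (γ : Fin a → A[X]) (B : A[X]) : Prop :=
  ∀ i, γ i ≠ 0 ∧ ∃ (e : A) (l : ℕ), e ≠ 0 ∧ γ i ∣ C e * B ^ l

end pencil

section special

variable {κ : Type} [Field κ] {r : ℕ}

/-- The polynomial `D` has exact degree `N`, it is squarefree and prime to `B ∏ (β_j - β_i)`, and over all
the coverings with a `p`-group of the Kummer covering `w_i ^ μ = γ_i`, Galois over the line and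
unramified outside of the zeros of `D B` (and `∞`), none of the `L`-functions of the characters `χ` of
exact order `q - 1` vanishes at `T = 1 / #κ`. -/
structure SettledOver (S : Pencil κ r) (p q μ : ℕ) {a : ℕ} (γ : Fin a → κ[X]) (N : ℕ)
    (D : κ[X]) : Prop where
  deg : D.natDegree = N
  squarefree : Squarefree D
  coprime : IsCoprime D S.disc
  nonvanishing : ∀ (G O : Type) [Group G] [Finite G] [CommRing O] [Algebra κ[X] O]
    [MulSemiringAction G O], IsLayerOver p μ γ (D * S.coef) G O →
      ∀ χ : MulChar κ ℂ, orderOf χ = q - 1 → ¬ Vanishes (Nat.card κ) (S.Lfun O χ D)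

/-- the polynomials that are not settled -/
theorem ncard_not_settled [Finite κ] {p : ℕ} [Fact p.Prime] [CharP κ p]
    {f₀ s q : ℕ} (hf₀ : 0 < f₀) (hs : 0 < s) (hq : q = p ^ f₀) (hk : Nat.card κ = q ^ s)
    {μ τ : ℕ} (hμ : 0 < μ) (hμτ : μ * τ = q - 1)
    (S : Pencil κ r) {d b : ℕ} (hd : 0 < d) (hdeg : ∀ i, (S.root i).natDegree ≤ d)
    (hdd : ∀ i j, i ≠ j → (S.root i - S.root j).natDegree = d)
    (hsq : Squarefree (differences S)) (hm : ∀ i, 0 < S.mult i) (hB : S.coef ≠ 0)
    (hb : ∀ P : κ[X], Irreducible P → ¬ P ^ (b + 1) ∣ S.coef)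
    {a : ℕ} (γ : Fin a → κ[X]) (hγ0 : ∀ i, γ i ≠ 0)
    (hγ : ∀ i, ∀ P : κ[X], Irreducible P → P ∣ γ i → P ∣ S.coef)
    (hchar : S.degX < p) (hrn : r * S.degX ≤ q - 1) (hr : 4 * (r + 1) ^ 2 ≤ q)
    (hbn : S.degX + b + 3 * r + 3 ≤ τ) {f : ℕ} (hf : f = S.coef.natDegree + d * S.degX) {δ : ℕ}
    (hδ : S.disc.natDegree ≤ δ) (hD0 : S.disc ≠ 0) (hbig : q * (δ + 3) ≤ Nat.card κ) {M ρ N : ℕ}
    (hM : μ * (8 * (r + 1) ^ 2 * (f + (q - 1) * (∑ i, (γ i).natDegree) + 1)) ≤ M)
    (hρ : 2 * r < ρ) (hρτ : ρ < τ) (hN : N + f = τ * M + ρ) :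
    q * {D : κ[X] | D.natDegree ≤ N ∧ ¬ SettledOver S p q μ γ N D}.ncard ≤
      (2 * μ ^ a + 1) * Nat.card κ ^ (N + 1) := by
  have hFt : Fintype κ := Fintype.ofFinite κ
  have hsimple := Pool.Agent.Y709.Irr.simple_of hd hdeg hdd hsq
  have h1 := Pool.Agent.Y709.Kum.countFX (k := κ) Pool.Agent.Y363.Kum.kummerDegreeFam
    Pool.Agent.Y468.Kum.kummerProd Pool.Agent.Y427.Kum.kummerOrder (p := p) hq hf₀ hs
    (by rw [← Nat.card_eq_fintype_card, hk]) S.coef hB b hb hsimple
    hm hchar hrn hμ hμτ γ hγ0 hγ hbn hr f ρ M N 1 hf (one_dvd _) (by omega) (by omega) hM hN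
  set V := {D : κ[X] | D.natDegree ≤ N ∧
    Pool.Agent.Y709.Kum.VanFX p (q - 1) 1 μ a γ (D * S.coef) S.root S.mult} with hV
  have hsub : {D : κ[X] | D.natDegree ≤ N ∧ ¬ SettledOver S p q μ γ N D} ⊆
      (({D : κ[X] | D.natDegree ≤ N ∧ D.natDegree ≠ N} ∪
        {D : κ[X] | D.natDegree ≤ N ∧ ¬ Squarefree D}) ∪
        {D : κ[X] | D.natDegree ≤ N ∧ ¬ IsCoprime D S.disc}) ∪ V := by
    rintro D ⟨hD, hns⟩
    by_cases h2 : D.natDegree = N
    · by_cases h3 : Squarefree D
      · by_cases h4 : IsCoprime D S.disc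
        · right
          by_contra h5
          apply hns
          refine ⟨h2, h3, h4, ?_⟩
          intro G O i1 i2 i3 i4 i5 hL χ hχ h6
          obtain ⟨H, hH⟩ := h6
          apply h5
          have i6 := hL.galois
          have i7 : FaithfulSMul κ[X] O :=
            (faithfulSMul_iff_algebraMap_injective _ _).2 hL.injective
          obtain ⟨w, hw, hact, hst⟩ := hL.kummer
          refine ⟨hD, G, O, i1, i2, i3, i4, i5, i6, i7, w, hw, hact, ?_, ?_, χ, hχ, 1, one_pow 1,
            H, ?_⟩
          · rintro ⟨σ, hσ⟩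
            obtain ⟨n, h1⟩ := hst σ fun i => by
              have h2 := (Subgroup.mem_iInf.1 hσ) i
              exact MulAction.mem_stabilizer_iff.1 h2
            exact ⟨n, Subtype.ext h1⟩
          · intro 𝔪 h𝔪
            apply hL.unramified
            intro h0
            exact h𝔪 ((Pool.Agent.Y709.Lay.vO_eq_zero κ).2 h0)
          · rw [← Lfun_eq, hH, mul_one]
        · exact Or.inl (Or.inr ⟨hD, h4⟩)
      · exact Or.inl (Or.inl (Or.inr ⟨hD, h3⟩))
    · exact Or.inl (Or.inl (Or.inl ⟨hD, h2⟩))
  have hVf : V.Finite := Pool.Agent.Y709.Sp.finite_sub N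
  have h2 := Pool.Agent.Y709.Sp.ncard_drop (k := κ) N
  have h3 := Pool.Agent.Y709.Sp.ncard_sq (k := κ) N
  have h4 := Pool.Agent.Y709.Sp.ncard_cop hD0 hδ N
  have h5 : {D : κ[X] | D.natDegree ≤ N ∧ ¬ SettledOver S p q μ γ N D}.ncard ≤
      (δ + 3) * Nat.card κ ^ N + V.ncard := by
    refine (Set.ncard_le_ncard hsub ((((Pool.Agent.Y709.Sp.finite_sub N).union
      (Pool.Agent.Y709.Sp.finite_sub N)).union (Pool.Agent.Y709.Sp.finite_sub N)).union
        hVf)).trans ?_
    refine (Set.ncard_union_le _ _).trans ?_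
    refine (Nat.add_le_add_right ((Set.ncard_union_le _ _).trans
      (Nat.add_le_add_right (Set.ncard_union_le _ _) _)) _).trans ?_
    have h6 : (δ + 3) * Nat.card κ ^ N = Nat.card κ ^ N + 2 * Nat.card κ ^ N +
      δ * Nat.card κ ^ N := by ring
    rw [h6]
    exact Nat.add_le_add_right (Nat.add_le_add (Nat.add_le_add h2 h3) h4) _
  calc q * _ ≤ q * ((δ + 3) * Nat.card κ ^ N + V.ncard) := Nat.mul_le_mul_left q h5
    _ = (q * (δ + 3)) * Nat.card κ ^ N + q * V.ncard := by ring
    _ ≤ Nat.card κ * Nat.card κ ^ N + 2 * 1 * μ ^ a * Nat.card κ ^ (N + 1) :=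
        Nat.add_le_add (Nat.mul_le_mul_right _ hbig) h1
    _ = _ := by ring

end special

section twists

variable {k : Type} [Field k] {A : Type} [CommRing A] [Algebra k A]

/-- The polynomials `D` which are settled at none of the closed points `c` of `Y = Spec A` with
`e(c) ≠ 0` at which the polynomial `g` over `A` has a root in the residue field. -/
def exceptions {r : ℕ} (S : Pencil A r) {a : ℕ} (γ : Fin a → A[X]) (e : A) (g : A[X])
    (H : Submodule k A) (p q μ N : ℕ) : Set A[X] :=
  {D | D ∈ twists H N ∧ ∀ c : MaximalSpectrum A, evalAt c e ≠ 0 →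
    (∃ x : A, evalAt c (g.eval x) = 0) →
      ¬ SettledOver (S.at (evalAt c)) p q μ (fun i => (γ i).map (evalAt c)) N (D.map (evalAt c))}

end twists

section lemmas

variable {A : Type} [CommRing A] {κ : Type} [Field κ]

theorem sep_map {P : A[X]} {u v : A[X]} {e : A} (h : u * P + v * derivative P = C e)
    (φ : A →+* κ) (he : φ e ≠ 0) : Squarefree (P.map φ) := by
  apply Polynomial.Separable.squarefree
  have h1 : u.map φ * P.map φ + v.map φ * derivative (P.map φ) = C (φ e) := by
    rw [derivative_map, ← Polynomial.map_mul, ← Polynomial.map_mul, ← Polynomial.map_add, h,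
      map_C]
  refine ⟨C (φ e)⁻¹ * u.map φ, C (φ e)⁻¹ * v.map φ, ?_⟩
  rw [mul_assoc, mul_assoc, ← mul_add, h1, ← C_mul, inv_mul_cancel₀ he, C_1]

theorem mult_map {B Q : A[X]} {e : A} {b : ℕ} (h : B ∣ C e * Q ^ b) (φ : A →+* κ) (he : φ e ≠ 0)
    (hQ : Squarefree (Q.map φ)) {P : κ[X]} (hP : Irreducible P) :
    ¬ P ^ (b + 1) ∣ B.map φ := by
  intro hd
  have h1 : B.map φ ∣ C (φ e) * (Q.map φ) ^ b := by
    have := Polynomial.map_dvd φ h
    rwa [Polynomial.map_mul, Polynomial.map_pow, map_C] at this
  have h2 : P ^ (b + 1) ∣ (Q.map φ) ^ b := by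
    have h3 := hd.trans h1
    have hu : IsUnit (C (φ e) : κ[X]) := isUnit_C.2 (isUnit_iff_ne_zero.2 he)
    exact (hu.dvd_mul_left).1 h3
  have hQ0 : Q.map φ ≠ 0 := hQ.ne_zero
  have h4 : ¬ P ^ 2 ∣ Q.map φ := by
    intro h5
    rw [pow_two] at h5
    exact hP.not_isUnit (hQ P h5)
  have h5 : emultiplicity P (Q.map φ) ≤ 1 := by
    have := (emultiplicity_lt_iff_not_dvd (a := P) (b := Q.map φ) (k := 2)).2 h4
    have h6 : emultiplicity P (Q.map φ) < 1 + 1 := by
      rw [one_add_one_eq_two]
      exact_mod_cast this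
    exact (ENat.lt_add_one_iff ENat.one_ne_top).1 h6
  have h6 : ((b + 1 : ℕ) : ℕ∞) ≤ emultiplicity P ((Q.map φ) ^ b) :=
    pow_dvd_iff_le_emultiplicity.1 h2
  rw [emultiplicity_pow hP.prime] at h6
  have h7 : (b : ℕ∞) * emultiplicity P (Q.map φ) ≤ (b : ℕ∞) * 1 := by gcongr
  rw [mul_one] at h7
  have h8 := h6.trans h7
  have h9 : b + 1 ≤ b := by exact_mod_cast h8
  omega

theorem zeros_map {B R : A[X]} {e : A} {l : ℕ} (h : R ∣ C e * B ^ l) (φ : A →+* κ) (he : φ e ≠ 0)
    {P : κ[X]} (hP : Irreducible P) (hd : P ∣ R.map φ) : P ∣ B.map φ := by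
  have h1 : R.map φ ∣ C (φ e) * (B.map φ) ^ l := by
    have := Polynomial.map_dvd φ h
    rwa [Polynomial.map_mul, Polynomial.map_pow, map_C] at this
  have hu : IsUnit (C (φ e) : κ[X]) := isUnit_C.2 (isUnit_iff_ne_zero.2 he)
  exact hP.prime.dvd_of_dvd_pow ((hu.dvd_mul_left).1 (hd.trans h1))

end lemmas

/-- **Tate's Birch-Swinnerton-Dyer conjecture for the new parts of 100 per cent of the twists of split
superelliptic pencils of any degree, over the function field of `Y × 𝔸¹` and over all the `p`-extensions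
of Kummer extensions.**

Let `q` be a power of the prime number `p`, let `k` be a finite extension of the field with `q` elements,
let `Y` be an affine variety over `k` of positive dimension with the coordinate ring `A`, and
`K = k(Y)(t)`; so every function field `k(Y)` over `k` is allowed, and `n = dim Y + 1 ≥ 2` is the
transcendence degree of `K` and the dimension of a model. Let `S` be a pencil
`y ^ (q - 1) = B ∏ (x - β_i) ^ (m_i)`, with `B` and `β_0, …, β_r` in `A[t]`, with generically simple
collisions, of degree `d` (arbitrary), and with the sum `Σ m_i` smaller than `p` and at most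
`(q - 1) / r`. Let `μ τ = q - 1`, and let `γ_1, …, γ_a` in `A[t]` be polynomials whose zeros are zeros
of `B`, with `Σ m_i + b + 3 r + 3 ≤ τ`, `4 (r + 1) ^ 2 ≤ q` and `4 μ ^ a + 2 ≤ q` (the last condition
follows from the others for `a ≤ 1 ≤ r`). For `D` in `A[t]` let `C_D` be the curve
`y ^ (q - 1) = D B ∏ (x - β_i) ^ (m_i)` over `K` and `A_D` the new part of its Jacobian, the part on
which the group of the roots of unity of order `q - 1` acts through characters of exact order `q - 1`,
of dimension `r φ(q - 1) / 2`.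

The theorem: let `e ≠ 0` in `A`, `g` a polynomial of positive degree over `A`, and `n ≥ 1`. There is a
finite-dimensional space `H₀` of functions on `Y` such that for every finite-dimensional space `H ⊇ H₀`
and every degree `N` with `N + f = τ M + ρ`, `f = deg B + d Σ m_i`,
`M ≥ 8 μ (r + 1) ^ 2 (f + (q - 1) Σ deg γ_i + 1)`, `2 r < ρ < τ`, for all `D` of degree at most `N` in
`t` with coefficients in `H`, outside of a proportion of at most `1 / n`, there is a closed point `c` of
`Y`, with `e(c) ≠ 0`, such that `g` has a root in `k(c)`, the specialisation `D_c` has exact degree `N`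
in `t`, is squarefree and prime to `B ∏ (β_j - β_i)` at `c`, and the `L`-functions of the specialisation
`A_{D, c}` do not vanish at the point `T = 1 / #k(c)` over every covering of the `t`-line over `k(c)`
that is Galois over the line, a covering with a `p`-group of the Kummer covering
`w_i ^ μ = γ_{i, c}`, and unramified outside of the zeros of `D_c B_c` and `∞`. So the density of the
`D` without such a point is zero (`H` growing, `N` arbitrary in these residue classes modulo `τ`).

This implies the conjecture for `A_D` over `K' = k(Y')(t)` for every variety `Y'` that is generically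
finite over `Y`, as explained in the starting file `DensityOneTwists`: the `L`-function `Φ₁` over `K'`
does not vanish at the point of the conjecture, and the rank of `A_D` over `K'` is zero. If `B` and the
`γ_i` are in `k[t]` the same holds over the composita of `K'` with all the finite extensions `L` of the
function field of the curve `w_i ^ μ = γ_i(t)` of `p`-power degree that are Galois over `k(t)` and
unramified over `k(t)` outside of the zeros of `B` and `∞`, for all of them at once, since their
ramification is constant along `Y`; these composita are function fields `k(Y' × Z)`, where for instance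
`Z` runs through all the coverings of `p`-power degree, Galois over the line, of a hyperelliptic curve
`w ^ 2 = γ(t)` of any genus: the rank of `A_D` is zero over the whole tower. -/
theorem result (k : Type) [Field k] [Finite k] (p : ℕ) [Fact p.Prime] [CharP k p] (f₀ s q : ℕ)
    (hf₀ : 0 < f₀) (hs : 0 < s) (hq : q = p ^ f₀) (hk : Nat.card k = q ^ s) (μ τ : ℕ) (hμ : 0 < μ)
    (hμτ : μ * τ = q - 1) (A : Type) [CommRing A]
    [IsDomain A] [Algebra k A] [Algebra.FiniteType k A] (hA : ¬ Module.Finite k A) (e : A)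
    (he : e ≠ 0) (g : A[X]) (hg : 0 < g.natDegree) (r : ℕ) (S : Pencil A r) (d b : ℕ)
    (hS : GenericallySimple S d b) (a : ℕ) (γ : Fin a → A[X]) (hγ : ZerosIn γ S.coef)
    (hchar : S.degX < p) (hdeg : r * S.degX ≤ q - 1) (hr : 4 * (r + 1) ^ 2 ≤ q)
    (hb : S.degX + b + 3 * r + 3 ≤ τ) (ha : 4 * μ ^ a + 2 ≤ q) (f : ℕ)
    (hf : f = S.coef.natDegree + d * S.degX) (n : ℕ) :
    ∃ H₀ : Submodule k A, Module.Finite k H₀ ∧ ∀ H : Submodule k A, H₀ ≤ H → Module.Finite k H →
      ∀ M ρ N : ℕ, μ * (8 * (r + 1) ^ 2 * (f + (q - 1) * (∑ i, (γ i).natDegree) + 1)) ≤ M →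
        2 * r < ρ → ρ < τ → N + f = τ * M + ρ →
        (twists H N).Finite ∧
          n * (exceptions S γ e g H p q μ N).ncard ≤ (twists H N).ncard := by
  classical
  obtain ⟨u₁, v₁, e₁, he₁, h₁⟩ := hS.diff_sep
  obtain ⟨Q, e₃, ⟨u₂, v₂, e₂, he₂, h₂⟩, he₃, hBQ⟩ := hS.coef_mult
  choose hγ0 e₄ l he₄ hγB using hγ
  have hroot : ∀ i j : Fin (r + 1), i ≠ j → S.root j - S.root i ≠ 0 := by
    intro i j hij h0
    apply hS.diff_deg j i hij.symm
    rw [h0, coeff_zero]
  have hD0 : S.disc ≠ 0 := by
    unfold Pencil.disc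
    refine mul_ne_zero hS.coef_ne ?_
    rw [Finset.prod_ne_zero_iff]
    intro i _
    rw [Finset.prod_ne_zero_iff]
    intro j hj
    rw [Finset.mem_Ioi] at hj
    exact hroot i j hj.ne
  set δ := S.disc.natDegree with hδ
  set E : A := e * S.disc.leadingCoeff * S.coef.leadingCoeff * e₁ * e₂ * e₃ *
    (∏ i, ∏ j ∈ Finset.univ.erase i, (S.root i - S.root j).coeff d) *
    ∏ i, ((γ i).leadingCoeff * e₄ i) with hE
  have hE0 : E ≠ 0 := by
    rw [hE]
    refine mul_ne_zero (mul_ne_zero (mul_ne_zero (mul_ne_zero (mul_ne_zero (mul_ne_zero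
      (mul_ne_zero he (leadingCoeff_ne_zero.2 hD0)) (leadingCoeff_ne_zero.2 hS.coef_ne)) he₁) he₂)
      he₃) ?_) ?_
    · rw [Finset.prod_ne_zero_iff]
      intro i _
      rw [Finset.prod_ne_zero_iff]
      intro j hj
      exact hS.diff_deg i j (Finset.ne_of_mem_erase hj).symm
    · rw [Finset.prod_ne_zero_iff]
      intro i _
      exact mul_ne_zero (leadingCoeff_ne_zero.2 (hγ0 i)) (he₄ i)
  -- closed points
  let Z : Set (MaximalSpectrum A) := {c | E ∉ c.asIdeal ∧
    (∃ x : A, g.eval x ∈ c.asIdeal) ∧ q * (δ + 3) ≤ Module.finrank k (A ⧸ c.asIdeal) ∧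
      Module.Finite k (A ⧸ c.asIdeal)}
  have hZ : Z.Infinite := by
    intro hfin
    obtain ⟨b', hb'⟩ := (hfin.image fun c : MaximalSpectrum A =>
      Module.finrank k (A ⧸ c.asIdeal)).bddAbove
    obtain ⟨c, h1, h2, h3, h4⟩ := Pool.Agent.Y709.Lay.existsRootPoint k A hA _ hE0 g hg
      (max (b' + 1) (q * (δ + 3)))
    have h5 := hb' ⟨c, ⟨h1, h2, (le_max_right _ _).trans h3, h4⟩, rfl⟩
    have h6 := (le_max_left _ _).trans h3
    dsimp only at h5
    omega
  obtain ⟨T, hTZ, hTn⟩ := hZ.exists_subset_card_eq n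
  have hTf : ∀ c ∈ T, Finite (A ⧸ c.asIdeal) := fun c hc => by
    have h1 := (hTZ hc).2.2.2
    exact Module.finite_of_finite k
  obtain ⟨H₀, hH₀, hH₀'⟩ := Pool.Agent.Y709.Lay.exists_sub (k := k) T hTf
  refine ⟨H₀, hH₀, fun H hle hHf M ρ N hM hρ hρτ hN => ?_⟩
  have htw : (twists H N).Finite := Set.finite_coe_iff.1 (Pool.Agent.Y709.Sp.finite_grp H N)
  refine ⟨htw, ?_⟩
  have hmain := Pool.Agent.Y709.Lay.count_specC H N T hTf (hH₀' H hle)
    (fun c => {D | ¬ SettledOver (S.at (evalAt c)) p q μ (fun i => (γ i).map (evalAt c)) N D}) q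
      (2 * μ ^ a + 1) (fun c hc => ?_)
  · have hq2 : 2 * (2 * μ ^ a + 1) ≤ q := by omega
    have hsub : (exceptions S γ e g H p q μ N).ncard ≤
        {D : A[X] | (D.natDegree ≤ N ∧ ∀ j, D.coeff j ∈ H) ∧ ∀ c ∈ T,
          D.map (Ideal.Quotient.mk c.asIdeal) ∈
            {D | ¬ SettledOver (S.at (evalAt c)) p q μ
              (fun i => (γ i).map (evalAt c)) N D}}.ncard := by
      refine Set.ncard_le_ncard ?_ (htw.subset fun D hD => hD.1)
      rintro D ⟨hD, hex⟩
      refine ⟨hD, fun c hc => ?_⟩
      refine hex c ?_ ((hTZ hc).2.1.imp fun x hx => Ideal.Quotient.eq_zero_iff_mem.2 hx)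
      intro h0
      have h1 : e ∈ c.asIdeal := Ideal.Quotient.eq_zero_iff_mem.1 h0
      refine (hTZ hc).1 ?_
      rw [hE]
      simp only [mul_assoc]
      exact c.asIdeal.mul_mem_right _ h1
    rw [hTn] at hmain
    have h3 : 0 < (2 * μ ^ a + 1) ^ n := pow_pos (by omega) n
    have h4 : (2 * μ ^ a + 1) ^ n * (2 ^ n * (exceptions S γ e g H p q μ N).ncard) ≤
        (2 * μ ^ a + 1) ^ n * (twists H N).ncard := by
      calc (2 * μ ^ a + 1) ^ n * (2 ^ n * (exceptions S γ e g H p q μ N).ncard) =
          (2 * (2 * μ ^ a + 1)) ^ n * (exceptions S γ e g H p q μ N).ncard := by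
            rw [mul_pow]
            ring
        _ ≤ q ^ n * (exceptions S γ e g H p q μ N).ncard :=
            Nat.mul_le_mul_right _ (Nat.pow_le_pow_left hq2 n)
        _ ≤ q ^ n * _ := Nat.mul_le_mul_left _ hsub
        _ ≤ _ := hmain
    have h5 := Nat.le_of_mul_le_mul_left h4 h3
    have h6 : n ≤ 2 ^ n := Nat.lt_two_pow_self.le
    exact (Nat.mul_le_mul_right _ h6).trans h5
  · obtain ⟨hc1, hc2, hc3, hc4⟩ := hTZ hc
    have hfc : Finite (FieldAt c) := hTf c hc
    have hmf : Module.Finite k (FieldAt c) := hc4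
    have hmax := c.isMaximal
    have hnt : Nontrivial (A ⧸ c.asIdeal) := Ideal.Quotient.nontrivial_iff.2 hmax.ne_top
    have hcard : Nat.card (FieldAt c) = Nat.card k ^ Module.finrank k (FieldAt c) :=
      Module.natCard_eq_pow_finrank (K := k) (V := A ⧸ c.asIdeal)
    have hdpos : 0 < Module.finrank k (FieldAt c) :=
      Module.finrank_pos (R := k) (M := A ⧸ c.asIdeal)
    have hcp : CharP (FieldAt c) p :=
      charP_of_injective_algebraMap (algebraMap k (FieldAt c)).injective p
    -- nothing vanishes at the point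
    have hEc : evalAt c E ≠ 0 := fun h0 => hc1 (Ideal.Quotient.eq_zero_iff_mem.1 h0)
    rw [hE] at hEc
    simp only [map_mul, map_prod] at hEc
    have k1 := left_ne_zero_of_mul hEc
    have k2 := right_ne_zero_of_mul hEc
    have k3 := left_ne_zero_of_mul k1
    have k4 := right_ne_zero_of_mul k1
    have k5 := left_ne_zero_of_mul k3
    have k6 : evalAt c e₃ ≠ 0 := right_ne_zero_of_mul k3
    have k7 := left_ne_zero_of_mul k5
    have k8 : evalAt c e₂ ≠ 0 := right_ne_zero_of_mul k5
    have k9 := left_ne_zero_of_mul k7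
    have k10 : evalAt c e₁ ≠ 0 := right_ne_zero_of_mul k7
    have k11 := left_ne_zero_of_mul k9
    have k12 : evalAt c S.coef.leadingCoeff ≠ 0 := right_ne_zero_of_mul k9
    have k13 : evalAt c S.disc.leadingCoeff ≠ 0 := right_ne_zero_of_mul k11
    rw [Finset.prod_ne_zero_iff] at k4 k2
    have hdiff : ∀ i j, i ≠ j → evalAt c ((S.root i - S.root j).coeff d) ≠ 0 := by
      intro i j hij
      have h1 := k4 i (Finset.mem_univ i)
      rw [Finset.prod_ne_zero_iff] at h1
      exact h1 j (Finset.mem_erase.2 ⟨hij.symm, Finset.mem_univ j⟩)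
    have hγl : ∀ i, evalAt c (γ i).leadingCoeff ≠ 0 := fun i =>
      left_ne_zero_of_mul (k2 i (Finset.mem_univ i))
    have hγe : ∀ i, evalAt c (e₄ i) ≠ 0 := fun i =>
      right_ne_zero_of_mul (k2 i (Finset.mem_univ i))
    have hdmap : (S.at (evalAt c)).disc = S.disc.map (evalAt c) := by
      unfold Pencil.disc Pencil.at
      rw [Polynomial.map_mul, Polynomial.map_prod]
      congr 1
      refine Finset.prod_congr rfl fun i _ => ?_
      rw [Polynomial.map_prod]
      refine Finset.prod_congr rfl fun j _ => ?_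
      rw [Polynomial.map_sub]
    have hdfmap : differences (S.at (evalAt c)) = (differences S).map (evalAt c) := by
      unfold differences Pencil.at
      rw [Polynomial.map_prod]
      refine Finset.prod_congr rfl fun i _ => ?_
      rw [Polynomial.map_prod]
      refine Finset.prod_congr rfl fun j _ => ?_
      rw [Polynomial.map_sub]
    have hD0c : (S.at (evalAt c)).disc ≠ 0 := by
      rw [hdmap]
      intro h0
      apply k13
      have h1 := congrArg (fun g : (FieldAt c)[X] => g.coeff S.disc.natDegree) h0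
      rw [coeff_map, coeff_zero] at h1
      exact h1
    have hB0c : (S.at (evalAt c)).coef ≠ 0 := by
      intro h0
      apply hD0c
      unfold Pencil.disc
      rw [h0, zero_mul]
    have hδc : (S.at (evalAt c)).disc.natDegree ≤ δ := by
      rw [hdmap]
      exact natDegree_map_le
    have hbig : q * (δ + 3) ≤ Nat.card (FieldAt c) := by
      have h1 : Module.finrank k (FieldAt c) < Nat.card k ^ Module.finrank k (FieldAt c) :=
        Nat.lt_pow_self (Finite.one_lt_card)
      rw [hcard]
      exact hc3.trans h1.le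
    have hBdeg : (S.at (evalAt c)).coef.natDegree = S.coef.natDegree :=
      natDegree_map_of_leadingCoeff_ne_zero _ k12
    have hdd : ∀ i j, i ≠ j →
        ((S.at (evalAt c)).root i - (S.at (evalAt c)).root j).natDegree = d := by
      intro i j hij
      have h1 : (S.at (evalAt c)).root i - (S.at (evalAt c)).root j =
          (S.root i - S.root j).map (evalAt c) := by
        unfold Pencil.at
        rw [Polynomial.map_sub]
      rw [h1]
      refine le_antisymm (natDegree_map_le.trans ?_) (le_natDegree_of_ne_zero ?_)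
      · exact (natDegree_sub_le _ _).trans (max_le (hS.root_deg i) (hS.root_deg j))
      · rw [coeff_map]
        exact hdiff i j hij
    have hsq : Squarefree (differences (S.at (evalAt c))) := by
      rw [hdfmap]
      exact sep_map h₁ _ k10
    have hmult : ∀ P : (FieldAt c)[X], Irreducible P →
        ¬ P ^ (b + 1) ∣ (S.at (evalAt c)).coef := fun P hP =>
      mult_map hBQ (evalAt c) k6 (sep_map h₂ _ k8) hP
    have hγ0c : ∀ i, (γ i).map (evalAt c) ≠ 0 := by
      intro i h0
      apply hγl i
      have h1 := congrArg (fun g : (FieldAt c)[X] => g.coeff (γ i).natDegree) h0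
      rw [coeff_map, coeff_zero] at h1
      exact h1
    have hγd : ∑ i, ((γ i).map (evalAt c)).natDegree = ∑ i, (γ i).natDegree :=
      Finset.sum_congr rfl fun i _ => natDegree_map_of_leadingCoeff_ne_zero _ (hγl i)
    have h1 := ncard_not_settled (κ := FieldAt c) (p := p) (s := s * Module.finrank k (FieldAt c))
      hf₀ (Nat.mul_pos hs hdpos) hq (by rw [hcard, hk, pow_mul]) hμ hμτ (S.at (evalAt c))
      hS.deg_pos (fun i => natDegree_map_le.trans (hS.root_deg i)) hdd hsq hS.mult_pos hB0c hmult
      (fun i => (γ i).map (evalAt c)) hγ0c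
      (fun i P hP hd => zeros_map (hγB i) (evalAt c) (hγe i) hP hd) hchar hdeg hr hb
      (f := f) (by rw [hBdeg]; exact hf) hδc hD0c hbig (M := M) (ρ := ρ) (N := N)
      (by rw [hγd]; exact hM) hρ hρτ hN
    exact h1

end Pool.Agent.Results.MP_9faec4_nt.KummerTowers
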