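import Pool.Agent.Y707.PC.Fin

/-!
# Tate's Birch–Swinnerton-Dyer conjecture for linear pencils of hyperelliptic curves

`V` is the variety of the points `(x, y)` with `y_i ^ 2 = G_i(x)`, over the number field `K`, for
polynomials `G_i` in `k` variables such that no product of some of them is a constant times a square:
all function fields of characteristic zero that are generated over a purely transcendental extension of
a number field by square roots are of this form.  `X` is the curve `Y ^ 2 = a(x, X) + w ∏ (X - α_j(x))`
of genus `g` over the finitely generated field `E(V × 𝔸¹) = E(V)(w)`, for any number field `E ⊇ K`, where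
`a` is monic of degree `2 g + 1` in `X` and there are at most `2 g` functions `α_j`.

`𝒴` is the open part of the model of `V × 𝔸¹` over the ring of integers of `E` which consists of the
points `(x, y, w)` with `2 y_i ≠ 0` and smooth fibre, without the primes over a finite set `R`; it has
dimension `k + 2`.  `X` has a rational point at infinity, so `Pic⁰_{X/E(V)(w)}(E(V)(w)) = Pic⁰ X` is the
class group of its affine coordinate ring.  For `g = 1` and constant `a`, `α_j` these are pencils of
plane cubics; the rank takes all values up to `2 g`.
The definitions are in `Pool.Agent.Y707.PC.Fin`, `Pool.Agent.Y707.PC.Pen`, `Pool.Agent.Y707.PC.Csq`,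
`Pool.Agent.Y707.RX.Defs`, `Pool.Agent.Y707.PH.Defs` and `Pool.Agent.W353.FB.Defs`.
-/

set_option autoImplicit false
set_option maxHeartbeats 400000

namespace Pool.Agent.Results.MP_9faec4_nt.LinearPencils

open Polynomial NumberField IsDedekindDomain Pool.Agent.Y707.PC
open Pool.Agent.Y707.RX (Continues)

/-- **The function `Φ₁` of a linear pencil.**  The Euler product `Φ₁` of `X` over the closed points of
`𝒴` has a meromorphic continuation to a neighbourhood of every point of the real half-line `[k + 2, ∞)`,
and its order at `s = k + 2 = dim 𝒴` is the rank of the free abelian group `Pic⁰ X`, over all number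
fields `E ⊇ K`: both are the number of the `j` for which `a(α_j)` becomes a square in `E(V)`. -/
theorem result (K : Type) [Field K] [NumberField K] (k l r g : ℕ)
    (G : Fin l → MvPolynomial (Fin k) (𝓞 K)) (a : (MvPolynomial (Fin k) (𝓞 K))[X])
    (α : Fin r → MvPolynomial (Fin k) (𝓞 K)) (h : IsPencil g G a α)
    (E : IntermediateField K (AlgebraicClosure K)) [NumberField E] :
    -- the analytic side: the continuation of `Φ₁` and its order at `dim 𝒴`
    (∀ R : Finset (HeightOneSpectrum (𝓞 K)), Continues (pencil g G a α) R E (count G a α E)) ∧
    -- the algebraic side: `Pic⁰ X` over `M(w)`, for the function field `M` of `V` over `E`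
    (∀ (M : Type) [Field M] [Algebra E M] (ξ : Fin k → M) (η : Fin l → M),
      IsFunctionField G E ξ η → IsSmoothCurve g (generic a α E ξ) ∧
        PicFreeOfRank (generic a α E ξ) (count G a α E)) ∧
    -- the function field exists
    (∃ (M : Type) (_ : Field M) (_ : Algebra E M) (ξ : Fin k → M) (η : Fin l → M),
      IsFunctionField G E ξ η) := by
  refine ⟨fun R => analytic h.independent h.monic h.degree h.number h.nonzero h.distinct E R,
    fun M _ _ ξ η hM => ?_, exists_field G E⟩
  obtain ⟨h1, h2, h3, h4⟩ := algebraic h.independent h.monic h.degree h.number h.nonzero h.distinct E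
    hM.1 hM.2.1 hM.2.2
  exact ⟨⟨h1, h2, h3⟩, h4⟩

end Pool.Agent.Results.MP_9faec4_nt.LinearPencils
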