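import Pool.Agent.Q11.PB.Quad

/-!
# Tate's Birch–Swinnerton-Dyer conjecture for the curves `Y ^ 2 = D(X) + (w + b(X)) ^ 2`

`V` is the variety of the points `(x, y)` with `y_i ^ 2 = G_i(x)`, over the number field `K`, for
polynomials `G_i` in `k` variables such that no product of some of them is a constant times a square.
`X` is the curve `Y ^ 2 = D₀(X) ∏ (X - δ_j(x)) + (w + b(x, X)) ^ 2` of genus `g` over the finitely
generated field `E(V × 𝔸¹) = E(V)(w)`, for any number field `E ⊇ K`, where `D₀` is a monic polynomial over
`𝓞_K` without multiple roots, the `δ_j` are distinct functions, not roots of `D₀`, with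
`deg D₀ + r = 2 g + 1`, and `b` is any polynomial of degree at most `g` in `X`.

`𝒴` is the open part of the model of `V × 𝔸¹` over the ring of integers of `E` which consists of the
points `(x, y, w)` with `2 y_i ≠ 0` and smooth fibre, without the primes over a finite set `R`; it has
dimension `k + 2`.  `X` has a rational point at infinity, so `Pic⁰_{X/E(V)(w)}(E(V)(w)) = Pic⁰ X` is the
class group of its affine coordinate ring.  The definitions are in `Pool.Agent.Q11.PB.Quad`,
`Pool.Agent.Q11.PB.Hyp`, `Pool.Agent.Y707.DK.Defs`, `Pool.Agent.Y707.PC.Fin`, `Pool.Agent.Y707.RX.Defs`,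
`Pool.Agent.Y707.PH.Defs` and `Pool.Agent.W353.FB.Defs`.
-/

set_option autoImplicit false
set_option maxHeartbeats 400000

namespace Pool.Agent.Results.MP_9faec4_nt.QuadraticPencils

open Polynomial NumberField IsDedekindDomain Pool.Agent.Y707.DK Pool.Agent.Q11.PB
open Pool.Agent.Y707.RX (Continues)
open Pool.Agent.Y707.PC (IsFunctionField IsSmoothCurve PicFreeOfRank exists_field)

/-- **The function `Φ₁` of a quadratic pencil.**  The Euler product `Φ₁` of `X` over the closed points of
`𝒴` has a meromorphic continuation to a neighbourhood of every point of the real half-line `[k + 2, ∞)`,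
and its order at `s = k + 2 = dim 𝒴` is the rank of the free abelian group `Pic⁰ X`, over all number
fields `E ⊇ K`: both are the number of the irreducible factors of `D₀ ∏ (X - δ_j)` over `E`, minus
one. -/
theorem result (K : Type) [Field K] [NumberField K] (k l r g : ℕ)
    (G : Fin l → MvPolynomial (Fin k) (𝓞 K)) (D₀ : (𝓞 K)[X])
    (δ : Fin r → MvPolynomial (Fin k) (𝓞 K)) (b : (MvPolynomial (Fin k) (𝓞 K))[X])
    (h : IsQuadPencil g G D₀ δ b) (E : IntermediateField K (AlgebraicClosure K)) [NumberField E] :
    -- the analytic side: the continuation of `Φ₁` and its order at `dim 𝒴`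
    (∀ R : Finset (HeightOneSpectrum (𝓞 K)),
      Continues (quadFamily g G D₀ δ b) R E (quadRank r D₀ E)) ∧
    -- the algebraic side: `Pic⁰ X` over `M(w)`, for the function field `M` of `V` over `E`
    (∀ (M : Type) [Field M] [Algebra E M] (ξ : Fin k → M) (η : Fin l → M),
      IsFunctionField G E ξ η → IsSmoothCurve g (genericQuad D₀ δ b E ξ) ∧
        PicFreeOfRank (genericQuad D₀ δ b E ξ) (quadRank r D₀ E)) ∧
    -- the function field exists
    (∃ (M : Type) (_ : Field M) (_ : Algebra E M) (ξ : Fin k → M) (η : Fin l → M),
      IsFunctionField G E ξ η) :=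
  ⟨fun R => quad_continues h R E, fun _ _ _ _ _ hM => quad_algebraic h E hM, exists_field G E⟩

end Pool.Agent.Results.MP_9faec4_nt.QuadraticPencils
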